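import Pool.Agent.H35.Sol.Pal

/-!
Long cycles of prime length `q = 3 mod 4`: the double transpositions at distance two.
-/

set_option autoImplicit false

namespace H35Sol

open Subgroup Equiv Equiv.Perm

section

variable {q : ℕ} [hq : Fact q.Prime]

/-- The unit `2`. -/
theorem exists_two (h4 : q % 4 = 3) : ∃ u : (ZMod q)ˣ, (u : ZMod q) = 2 := by
  have h : Nat.Coprime 2 q := by
    rw [Nat.coprime_two_left]
    exact Nat.odd_iff.mpr (by omega)
  exact ⟨ZMod.unitOfCoprime 2 h, by rw [ZMod.coe_unitOfCoprime]; norm_num⟩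

theorem three_ne (h7 : 7 ≤ q) : (3 : ZMod q) ≠ 0 := by
  intro h
  have h1 : ((3 : ℕ) : ZMod q) = 0 := by exact_mod_cast h
  rw [ZMod.natCast_eq_zero_iff] at h1
  have := Nat.le_of_dvd (by norm_num) h1
  omega

/-- `z` can be reached from `x` in two steps inside the even permutations. -/
def InD {α : Type*} [Fintype α] [DecidableEq α] (x z : Perm α) : Prop :=
  ∃ y : Perm α, Perm.sign y = 1 ∧ y ≠ 1 ∧ SolAdj x y ∧ SolAdj y z

/-- The data of a long cycle. -/
structure QC {α : Type*} (x : Perm α) (φ : ZMod q ↪ α) : Prop where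
  eq : x = viaEmbeddingHom φ (Equiv.addRight (1 : ZMod q))
  out : ∀ u v, u ∉ Set.range φ → v ∉ Set.range φ → u = v

private theorem via_in {α : Type*} (φ : ZMod q ↪ α) (f : Perm (ZMod q)) (t : ZMod q) :
    viaEmbeddingHom φ f (φ t) = φ (f t) := by
  rw [viaEmbeddingHom_apply]
  exact viaEmbedding_apply f φ t

private theorem via_out {α : Type*} (φ : ZMod q ↪ α) (f : Perm (ZMod q)) {u : α}
    (hu : u ∉ Set.range φ) : viaEmbeddingHom φ f u = u := by
  rw [viaEmbeddingHom_apply]
  exact viaEmbedding_apply_of_notMem f φ u hu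

private theorem via_swap {α : Type*} [DecidableEq α] (φ : ZMod q ↪ α) (a b : ZMod q) :
    viaEmbeddingHom φ (swap a b) = swap (φ a) (φ b) := by
  ext u
  by_cases hu : u ∈ Set.range φ
  · obtain ⟨t, rfl⟩ := hu
    rw [via_in]
    by_cases hta : t = a
    · rw [hta, swap_apply_left, swap_apply_left]
    · by_cases htb : t = b
      · rw [htb, swap_apply_right, swap_apply_right]
      · rw [swap_apply_of_ne_of_ne hta htb, swap_apply_of_ne_of_ne (φ.injective.ne hta)
          (φ.injective.ne htb)]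
  · rw [via_out φ _ hu, swap_apply_of_ne_of_ne]
    · rintro rfl
      exact hu ⟨a, rfl⟩
    · rintro rfl
      exact hu ⟨b, rfl⟩

/-- The element of the normaliser of the long cycle with centre `c`. -/
theorem exists_y {α : Type*} [Fintype α] [DecidableEq α] {x : Perm α} {φ : ZMod q ↪ α}
    (hx : QC x φ) (h4 : q % 4 = 3) (h7 : 7 ≤ q) (c : ZMod q) :
    ∃ u : (ZMod q)ˣ, qc (u : ZMod q) = 1 ∧ Perm.sign (viaEmbeddingHom φ (aff c u)) = 1 ∧
      viaEmbeddingHom φ (aff c u) ≠ 1 ∧ SolAdj x (viaEmbeddingHom φ (aff c u)) := by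
  obtain ⟨w, hw⟩ := exists_two (q := q) h4
  refine ⟨w * w, ?_, ?_, ?_, ?_⟩
  · rw [Units.val_mul]
    exact qc_sq w.ne_zero
  · rw [← aff_mul, map_mul, map_mul]
    exact Int.units_mul_self _
  · intro h
    have h1 : viaEmbeddingHom φ (aff c (w * w)) (φ (c + 1)) = φ (c + 1) := by rw [h]; rfl
    rw [via_in, aff_apply, Units.val_mul, hw] at h1
    have h2 := φ.injective h1
    apply three_ne (q := q) h7
    linear_combination h2
  · rw [hx.eq]
    exact ((sol_aff c (w * w)).map (viaEmbeddingHom φ)).symm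

/-- Double transpositions inside the cycle. -/
theorem inD_in {α : Type*} [Fintype α] [DecidableEq α] {x : Perm α} {φ : ZMod q ↪ α}
    (hx : QC x φ) (h4 : q % 4 = 3) (h7 : 7 ≤ q) {a b d e : ZMod q} (hab : a ≠ b) (had : a ≠ d)
    (hae : a ≠ e) (hbd : b ≠ d) (hbe : b ≠ e) (hde : d ≠ e) (h1 : qc (b - a) = qc (e - d))
    (h2 : qc (d - a) = - qc (e - b)) : InD x (swap (φ a) (φ b) * swap (φ d) (φ e)) := by
  obtain ⟨c, m, ε, hm, hε, hmem⟩ := swap2_mem h4 hab had hae hbd hbe hde h1 h2
  obtain ⟨u, hu, hs, hn, hadj⟩ := exists_y hx h4 h7 c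
  refine ⟨_, hs, hn, hadj, ?_⟩
  rw [← via_swap, ← via_swap, ← map_mul]
  refine SolAdj.map _ ?_
  exact sol_crit (Wset (Wf c m ε)) hmem (Wset_comm (Wf_invol hm hε))
    (Wset_conj (fun t => Wf_aff hu t)) (Wset_conj' (fun t => Wf_aff hu t))

private theorem sol_mul {G : Type*} [Group G] {y z u : G} (C : Set G)
    (hz : z ∈ C) (hC : ∀ f ∈ C, ∀ g ∈ C, f * g = g * f) (h1 : ∀ f ∈ C, y * f * y⁻¹ ∈ C)
    (h2 : ∀ f ∈ C, y⁻¹ * f * y ∈ C) (hu : ∀ f ∈ C, u * f = f * u) (hyu : y * u = u * y) :
    SolAdj y (u * z) := by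
  have hyu' : y⁻¹ * u = u * y⁻¹ := by
    have : Commute y u := hyu
    exact this.inv_left.eq
  refine sol_crit {f | f ∈ C ∨ ∃ g ∈ C, f = u * g} (Or.inr ⟨z, hz, rfl⟩) ?_ ?_ ?_
  · rintro f (hf | ⟨f', hf', rfl⟩) g (hg | ⟨g', hg', rfl⟩)
    · exact hC f hf g hg
    · calc f * (u * g') = (f * u) * g' := by group
        _ = u * (f * g') := by rw [← hu f hf]; group
        _ = u * g' * f := by rw [hC f hf g' hg']; group
    · calc u * f' * g = u * (f' * g) := by group
        _ = u * g * f' := by rw [hC f' hf' g hg]; group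
        _ = g * (u * f') := by rw [hu g hg]; group
    · calc u * f' * (u * g') = u * (f' * u) * g' := by group
        _ = u * u * (f' * g') := by rw [← hu f' hf']; group
        _ = u * (u * g') * f' := by rw [hC f' hf' g' hg']; group
        _ = u * (g' * u) * f' := by rw [hu g' hg']
        _ = u * g' * (u * f') := by group
  · rintro f (hf | ⟨f', hf', rfl⟩)
    · exact Or.inl (h1 f hf)
    · refine Or.inr ⟨_, h1 f' hf', ?_⟩
      calc y * (u * f') * y⁻¹ = (y * u) * f' * y⁻¹ := by group
        _ = u * (y * f' * y⁻¹) := by rw [hyu]; group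
  · rintro f (hf | ⟨f', hf', rfl⟩)
    · exact Or.inl (h2 f hf)
    · refine Or.inr ⟨_, h2 f' hf', ?_⟩
      calc y⁻¹ * (u * f') * y = (y⁻¹ * u) * f' * y := by group
        _ = u * (y⁻¹ * f' * y) := by rw [hyu']; group

/-- Double transpositions that use the point outside the cycle. -/
theorem inD_out {α : Type*} [Fintype α] [DecidableEq α] {x : Perm α} {φ : ZMod q ↪ α}
    (hx : QC x φ) (h4 : q % 4 = 3) (h7 : 7 ≤ q) {a b c : ZMod q} {w : α}
    (hw : w ∉ Set.range φ) (h1 : qc (a - c) * qc (b - c) = -1) :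
    InD x (swap w (φ c) * swap (φ a) (φ b)) := by
  obtain ⟨u, hu, hs, hn, hadj⟩ := exists_y hx h4 h7 c
  have hac0 : a - c ≠ 0 := by
    intro h
    rw [h, qc_zero, zero_mul] at h1
    norm_num at h1
  have hε := qc_ne hac0
  set m : ZMod q := (b - c) * (a - c)⁻¹ with hm
  have hm1 : qc m = -1 := by
    rw [hm, qc_mul, qc_inv, mul_comm]
    exact h1
  have hm0 : m ≠ 0 := by
    rintro h
    rw [h, qc_zero] at hm1
    norm_num at hm1
  have haa : (a - c) * (a - c)⁻¹ = 1 := mul_inv_cancel₀ hac0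
  have hmm : m * m⁻¹ = 1 := mul_inv_cancel₀ hm0
  have m1 : m * (a - c) = b - c := by
    rw [hm]
    linear_combination (b - c) * haa
  have wa : Wf c m (qc (a - c)) a = b := by
    unfold Wf
    rw [if_pos rfl, m1]
    ring
  have wb : Wf c m (qc (a - c)) b = a := by
    have hne : qc (b - c) ≠ qc (a - c) := by
      intro h
      rw [h] at h1
      rcases hε with h' | h' <;> rw [h'] at h1 <;> norm_num at h1
    unfold Wf
    rw [if_neg hne, ← m1]
    linear_combination (a - c) * hmm
  have wc : Wf c m (qc (a - c)) c = c := by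
    unfold Wf
    split_ifs <;> rw [sub_self, mul_zero, add_zero]
  refine ⟨_, hs, hn, hadj, ?_⟩
  have hfix : ∀ f : Perm (ZMod q), f c = c →
      swap w (φ c) * viaEmbeddingHom φ f = viaEmbeddingHom φ f * swap w (φ c) := by
    intro f hf
    have := mul_swap_eq_swap_mul (viaEmbeddingHom φ f) w (φ c)
    rw [via_out φ f hw, via_in, hf] at this
    exact this.symm
  rw [← via_swap]
  refine sol_mul ((viaEmbeddingHom φ) '' Wset (Wf c m (qc (a - c)))) ?_ ?_ ?_ ?_ ?_ ?_
  · exact ⟨_, swap1_Wset wa wb, rfl⟩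
  · rintro _ ⟨f, hf, rfl⟩ _ ⟨g, hg, rfl⟩
    rw [← map_mul, ← map_mul, Wset_comm (Wf_invol hm1 hε) f hf g hg]
  · rintro _ ⟨f, hf, rfl⟩
    refine ⟨_, Wset_conj (fun t => Wf_aff hu t) f hf, ?_⟩
    rw [map_mul, map_mul, map_inv]
  · rintro _ ⟨f, hf, rfl⟩
    refine ⟨_, Wset_conj' (fun t => Wf_aff hu t) f hf, ?_⟩
    rw [map_mul, map_mul, map_inv]
  · rintro _ ⟨f, hf, rfl⟩
    refine hfix f ?_
    rcases hf c with h | h
    · exact h
    · rw [h, wc]
  · refine (hfix _ ?_).symm
    rw [aff_apply, sub_self, mul_zero, add_zero]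

/-- Three matchings of a four-point set. -/
def M3 {α : Type*} [Fintype α] [DecidableEq α] (x : Perm α) (a b c d : α) : Prop :=
  InD x (swap a b * swap c d)

theorem M3.comm12 {α : Type*} [Fintype α] [DecidableEq α] {x : Perm α} {a b c d : α}
    (h : M3 x a b c d) : M3 x b a c d := by
  unfold M3 at h ⊢
  rwa [swap_comm b a]

theorem M3.comm34 {α : Type*} [Fintype α] [DecidableEq α] {x : Perm α} {a b c d : α}
    (h : M3 x a b c d) : M3 x a b d c := by
  unfold M3 at h ⊢
  rwa [swap_comm d c]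

theorem M3.comm {α : Type*} [Fintype α] [DecidableEq α] {x : Perm α} {a b c d : α}
    (hac : a ≠ c) (had : a ≠ d) (hbc : b ≠ c) (hbd : b ≠ d) (h : M3 x a b c d) :
    M3 x c d a b := by
  unfold M3 at h ⊢
  have := mul_swap_eq_swap_mul (swap c d) a b
  rw [swap_apply_of_ne_of_ne hac had, swap_apply_of_ne_of_ne hbc hbd] at this
  rwa [this]

private theorem sgn3 {x y : ℤ} (hx : x = 1 ∨ x = -1) (hy : y = 1 ∨ y = -1) :
    x = y ∨ x = -y := by
  rcases hx with h | h <;> rcases hy with h' | h' <;> rw [h, h'] <;> norm_num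

/-- Every set of four points inside the cycle has a good matching. -/
theorem four_in {α : Type*} [Fintype α] [DecidableEq α] {x : Perm α} {φ : ZMod q ↪ α}
    (hx : QC x φ) (h4 : q % 4 = 3) (h7 : 7 ≤ q) {a b c d : ZMod q} (hab : a ≠ b) (hac : a ≠ c)
    (had : a ≠ d) (hbc : b ≠ c) (hbd : b ≠ d) (hcd : c ≠ d) :
    M3 x (φ a) (φ b) (φ c) (φ d) ∨ M3 x (φ a) (φ c) (φ b) (φ d) ∨
      M3 x (φ a) (φ d) (φ b) (φ c) := by
  have s12 := qc_ne (sub_ne_zero.mpr hab.symm)
  have s13 := qc_ne (sub_ne_zero.mpr hac.symm)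
  have s14 := qc_ne (sub_ne_zero.mpr had.symm)
  have s23 := qc_ne (sub_ne_zero.mpr hbc.symm)
  have s24 := qc_ne (sub_ne_zero.mpr hbd.symm)
  have s34 := qc_ne (sub_ne_zero.mpr hcd.symm)
  have n23 : qc (b - c) = - qc (c - b) := by rw [← qc_neg h4, neg_sub]
  have n24 : qc (b - d) = - qc (d - b) := by rw [← qc_neg h4, neg_sub]
  have n34 : qc (c - d) = - qc (d - c) := by rw [← qc_neg h4, neg_sub]
  rcases sgn3 s12 s34 with hP | hP
  · rcases sgn3 s13 s24 with hQ | hQ
    · rcases sgn3 s14 s23 with hR | hR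
      · -- `R = 1`, `P = 1`
        right; right
        exact inD_in hx h4 h7 had hab hac hbd.symm hcd.symm hbc hR
          (by rw [hP, n34, neg_neg])
      · -- `R = -1`, `Q = 1`
        right; right
        have := inD_in hx h4 h7 (a := a) (b := d) (d := c) (e := b) had hac hab hcd.symm
          hbd.symm hbc.symm (by rw [hR, n23]) (by rw [hQ, n24, neg_neg])
        exact M3.comm34 this
    · left
      exact inD_in hx h4 h7 hab hac had hbc hbd hcd hP hQ
  · rcases sgn3 s14 s23 with hR | hR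
    · right; left
      rcases sgn3 s13 s24 with hQ | hQ
      · exact inD_in hx h4 h7 hac hab had hbc.symm hcd hbd hQ hP
      · have := inD_in hx h4 h7 (a := a) (b := c) (d := d) (e := b) hac had hab hcd
          hbc.symm hbd.symm (by rw [hQ, n24]) (by rw [hR, n23, neg_neg])
        exact M3.comm34 this
    · left
      have := inD_in hx h4 h7 (a := a) (b := b) (d := d) (e := c) hab had hac hbd hbc
        hcd.symm (by rw [hP, n34]) (by rw [hR])
      exact M3.comm34 this

/-- Every set of four points that contains the point outside the cycle has a good matching. -/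
theorem four_out {α : Type*} [Fintype α] [DecidableEq α] {x : Perm α} {φ : ZMod q ↪ α}
    (hx : QC x φ) (h4 : q % 4 = 3) (h7 : 7 ≤ q) {a b c : ZMod q} {w : α}
    (hw : w ∉ Set.range φ) (hab : a ≠ b) (hac : a ≠ c) (hbc : b ≠ c) :
    M3 x w (φ a) (φ b) (φ c) ∨ M3 x w (φ b) (φ a) (φ c) ∨ M3 x w (φ c) (φ a) (φ b) := by
  have sX := qc_ne (sub_ne_zero.mpr hab.symm)
  have sY := qc_ne (sub_ne_zero.mpr hbc.symm)
  have sZ := qc_ne (sub_ne_zero.mpr hac)
  have n1 : qc (c - a) = - qc (a - c) := by rw [← qc_neg h4, neg_sub]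
  have n2 : qc (a - b) = - qc (b - a) := by rw [← qc_neg h4, neg_sub]
  have n3 : qc (b - c) = - qc (c - b) := by rw [← qc_neg h4, neg_sub]
  rcases sgn3 sX sY with h | h
  · right; left
    refine inD_out hx h4 h7 hw ?_
    rw [n2, h]
    rcases sY with h' | h' <;> rw [h'] <;> norm_num
  · rcases sgn3 sX sZ with h' | h'
    · left
      refine inD_out hx h4 h7 hw ?_
      rw [n1, h']
      rcases sZ with h'' | h'' <;> rw [h''] <;> norm_num
    · right; right
      refine inD_out hx h4 h7 hw ?_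
      have : qc (c - b) = qc (a - c) := by linarith
      rw [n3, this]
      rcases sZ with h'' | h'' <;> rw [h''] <;> norm_num

/-- A three-cycle of squares. -/
theorem exists_tri (h4 : q % 4 = 3) (h7 : 7 ≤ q) : ∃ r s t : ZMod q, qc r = 1 ∧ qc s = 1 ∧
    qc t = 1 ∧ qc (s - r) = 1 ∧ qc (t - s) = 1 ∧ qc (r - t) = 1 := by
  classical
  set In : ZMod q → Finset (ZMod q) :=
    fun t => Finset.univ.filter (fun u => qc u = 1 ∧ qc (t - u) = 1) with hIn
  have hone : qc (1 : ZMod q) = 1 := by
    unfold qc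
    exact map_one _
  have hcard : ∀ t, qc t = 1 → (In 1).card ≤ (In t).card ∧ (In t).card ≤ (In 1).card := by
    intro t ht
    have ht0 : t ≠ 0 := by
      rintro rfl
      rw [qc_zero] at ht
      norm_num at ht
    constructor
    · refine Finset.card_le_card_of_injOn (fun u => t * u) ?_ ?_
      · intro u hu
        rw [Finset.mem_coe, hIn, Finset.mem_filter] at hu ⊢
        refine ⟨Finset.mem_univ _, by rw [qc_mul, ht, hu.2.1]; norm_num, ?_⟩
        have : t - t * u = t * (1 - u) := by ring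
        rw [this, qc_mul, ht, hu.2.2]
        norm_num
      · intro u _ v _ h
        exact mul_left_cancel₀ ht0 h
    · refine Finset.card_le_card_of_injOn (fun u => t⁻¹ * u) ?_ ?_
      · intro u hu
        rw [Finset.mem_coe, hIn, Finset.mem_filter] at hu ⊢
        refine ⟨Finset.mem_univ _, by rw [qc_mul, qc_inv, ht, hu.2.1]; norm_num, ?_⟩
        have : 1 - t⁻¹ * u = t⁻¹ * (t - u) := by
          have := inv_mul_cancel₀ ht0
          linear_combination -this
        rw [this, qc_mul, qc_inv, ht, hu.2.2]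
        norm_num
      · intro u _ v _ h
        exact mul_left_cancel₀ (inv_ne_zero ht0) h
  have h2 : (2 : ZMod q) ≠ 0 := by
    obtain ⟨u, hu⟩ := exists_two (q := q) h4
    rw [← hu]
    exact u.ne_zero
  have hfour : qc (4 : ZMod q) = 1 := by
    have : (4 : ZMod q) = 2 * 2 := by norm_num
    rw [this]
    exact qc_sq h2
  have h40 : (4 : ZMod q) ≠ 0 := by
    intro h
    rw [h, qc_zero] at hfour
    norm_num at hfour
  have hout : ∃ t : ZMod q, qc t = 1 ∧ qc (t - 1) = 1 := by
    rcases qc_ne (three_ne (q := q) h7) with h | h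
    · refine ⟨4, hfour, ?_⟩
      have : (4 : ZMod q) - 1 = 3 := by norm_num
      rw [this, h]
    · refine ⟨4⁻¹, by rw [qc_inv, hfour], ?_⟩
      have : (4 : ZMod q)⁻¹ - 1 = 4⁻¹ * (-3) := by
        have := inv_mul_cancel₀ h40
        linear_combination this
      rw [this, qc_mul, qc_inv, hfour, qc_neg h4, h]
      norm_num
  obtain ⟨t, ht, ht1⟩ := hout
  by_contra hcon
  push Not at hcon
  have hsub : insert 1 (In 1) ⊆ In t := by
    intro u hu
    rw [Finset.mem_insert] at hu
    rw [hIn, Finset.mem_filter]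
    rcases hu with rfl | hu
    · exact ⟨Finset.mem_univ _, hone, ht1⟩
    · rw [hIn, Finset.mem_filter] at hu
      refine ⟨Finset.mem_univ _, hu.2.1, ?_⟩
      have h5 := hcon 1 t u hone ht hu.2.1 ht1
      have hne : t - u ≠ 0 := by
        intro h
        have e : u = t := (sub_eq_zero.mp h).symm
        have h6 := hu.2.2
        rw [e] at h6
        have h7 : qc (1 - t) = - qc (t - 1) := by rw [← qc_neg h4, neg_sub]
        rw [h7, ht1] at h6
        norm_num at h6
      rcases qc_ne hne with h | h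
      · exact h
      · exfalso
        have h8 : qc (u - t) = 1 := by
          have : qc (u - t) = - qc (t - u) := by rw [← qc_neg h4, neg_sub]
          rw [this, h]
          norm_num
        exact h5 h8 hu.2.2
  have hnot : (1 : ZMod q) ∉ In 1 := by
    rw [hIn, Finset.mem_filter]
    rintro ⟨_, _, h⟩
    rw [sub_self, qc_zero] at h
    norm_num at h
  have h9 := Finset.card_le_card hsub
  rw [Finset.card_insert_of_notMem hnot] at h9
  have h10 := (hcard t ht).2
  omega

/-- Four points all of whose matchings are good. -/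
theorem exists_four {α : Type*} [Fintype α] [DecidableEq α] {x : Perm α} {φ : ZMod q ↪ α}
    (hx : QC x φ) (h4 : q % 4 = 3) (h7 : 7 ≤ q) : ∃ a b c d : α, a ≠ b ∧ a ≠ c ∧ a ≠ d ∧
      b ≠ c ∧ b ≠ d ∧ c ≠ d ∧ M3 x a b c d ∧ M3 x a c b d ∧ M3 x a d b c := by
  obtain ⟨r, s, t, hr, hs, ht, h1, h2, h3⟩ := exists_tri (q := q) h4 h7
  have hne : ∀ {v : ZMod q}, qc v = 1 → v ≠ 0 := by
    rintro v hv rfl
    rw [qc_zero] at hv
    norm_num at hv
  have h0r := (hne hr).symm
  have h0s := (hne hs).symm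
  have h0t := (hne ht).symm
  have hrs : r ≠ s := fun h => hne h1 (by rw [h, sub_self])
  have hst : s ≠ t := fun h => hne h2 (by rw [h, sub_self])
  have hrt : r ≠ t := fun h => hne h3 (by rw [h, sub_self])
  have n1 : qc (t - r) = - qc (r - t) := by rw [← qc_neg h4, neg_sub]
  have n2 : qc (r - s) = - qc (s - r) := by rw [← qc_neg h4, neg_sub]
  have n3 : qc (s - t) = - qc (t - s) := by rw [← qc_neg h4, neg_sub]
  have hi := φ.injective
  refine ⟨φ 0, φ r, φ s, φ t, hi.ne h0r, hi.ne h0s, hi.ne h0t, hi.ne hrs, hi.ne hrt,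
    hi.ne hst, ?_, ?_, ?_⟩
  · exact inD_in hx h4 h7 h0r h0s h0t hrs hrt hst (by rw [sub_zero, hr, h2])
      (by rw [sub_zero, hs, n1, h3]; norm_num)
  · have := inD_in hx h4 h7 (a := 0) (b := s) (d := t) (e := r) h0s h0t h0r hst hrs.symm
      hrt.symm (by rw [sub_zero, hs, h3]) (by rw [sub_zero, ht, n2, h1]; norm_num)
    exact M3.comm34 this
  · exact inD_in hx h4 h7 h0t h0r h0s hrt.symm hst.symm hrs (by rw [sub_zero, ht, h1])
      (by rw [sub_zero, hr, n3, h2]; norm_num)

/-- Every four points have a good matching. -/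
theorem four_all {α : Type*} [Fintype α] [DecidableEq α] {x : Perm α} {φ : ZMod q ↪ α}
    (hx : QC x φ) (h4 : q % 4 = 3) (h7 : 7 ≤ q) {a b c d : α} (hab : a ≠ b) (hac : a ≠ c)
    (had : a ≠ d) (hbc : b ≠ c) (hbd : b ≠ d) (hcd : c ≠ d) :
    M3 x a b c d ∨ M3 x a c b d ∨ M3 x a d b c := by
  by_cases ha : a ∈ Set.range φ
  · by_cases hb : b ∈ Set.range φ
    · by_cases hc : c ∈ Set.range φ
      · by_cases hd : d ∈ Set.range φ
        · obtain ⟨a, rfl⟩ := ha
          obtain ⟨b, rfl⟩ := hb
          obtain ⟨c, rfl⟩ := hc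
          obtain ⟨d, rfl⟩ := hd
          have hne : ∀ {u v : ZMod q}, φ u ≠ φ v → u ≠ v := fun h h' => h (by rw [h'])
          exact four_in hx h4 h7 (hne hab) (hne hac) (hne had) (hne hbc) (hne hbd) (hne hcd)
        · obtain ⟨a, rfl⟩ := ha
          obtain ⟨b, rfl⟩ := hb
          obtain ⟨c, rfl⟩ := hc
          have hne : ∀ {u v : ZMod q}, φ u ≠ φ v → u ≠ v := fun h h' => h (by rw [h'])
          rcases four_out hx h4 h7 hd (hne hab) (hne hac) (hne hbc) with h | h | h
          · -- `d a | b c`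
            right; right
            exact h.comm12
          · -- `d b | a c`
            right; left
            exact (h.comm had.symm hcd.symm hab.symm hbc).comm34
          · left
            exact (h.comm had.symm hbd.symm hac.symm hbc.symm).comm34
      · obtain ⟨a, rfl⟩ := ha
        obtain ⟨b, rfl⟩ := hb
        have hd : d ∈ Set.range φ := by
          by_contra hd
          exact hcd (hx.out _ _ hc hd)
        obtain ⟨d, rfl⟩ := hd
        have hne : ∀ {u v : ZMod q}, φ u ≠ φ v → u ≠ v := fun h h' => h (by rw [h'])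
        rcases four_out hx h4 h7 hc (hne hab) (hne had) (hne hbd) with h | h | h
        · -- `c a | b d`
          right; left
          exact h.comm12
        · -- `c b | a d`
          right; right
          exact (h.comm hac.symm hcd hab.symm hbd).comm34
        · left
          exact (h.comm hac.symm hbc.symm had.symm hbd.symm)
    · obtain ⟨a, rfl⟩ := ha
      have hc : c ∈ Set.range φ := by
        by_contra hc
        exact hbc (hx.out _ _ hb hc)
      have hd : d ∈ Set.range φ := by
        by_contra hd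
        exact hbd (hx.out _ _ hb hd)
      obtain ⟨c, rfl⟩ := hc
      obtain ⟨d, rfl⟩ := hd
      have hne : ∀ {u v : ZMod q}, φ u ≠ φ v → u ≠ v := fun h h' => h (by rw [h'])
      rcases four_out hx h4 h7 hb (hne hac) (hne had) (hne hcd) with h | h | h
      · -- `b a | c d`
        left
        exact h.comm12
      · -- `b c | a d`
        right; right
        exact (h.comm hab.symm hbd hac.symm hcd)
      · right; left
        exact (h.comm hab.symm hbc had.symm hcd.symm)
  · have hb : b ∈ Set.range φ := by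
      by_contra hb
      exact hab (hx.out _ _ ha hb)
    have hc : c ∈ Set.range φ := by
      by_contra hc
      exact hac (hx.out _ _ ha hc)
    have hd : d ∈ Set.range φ := by
      by_contra hd
      exact had (hx.out _ _ ha hd)
    obtain ⟨b, rfl⟩ := hb
    obtain ⟨c, rfl⟩ := hc
    obtain ⟨d, rfl⟩ := hd
    have hne : ∀ {u v : ZMod q}, φ u ≠ φ v → u ≠ v := fun h h' => h (by rw [h'])
    exact four_out hx h4 h7 ha (hne hbc) (hne hbd) (hne hcd)

end

end H35Sol
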