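import Mathlib

/-!
Soluble graph of a finite group: definitions and criteria for two elements to generate a soluble
subgroup.
-/

set_option autoImplicit false

namespace H35Sol

open Subgroup

/-- The soluble radical: the subgroup generated by all soluble normal subgroups. -/
def solRadical (G : Type*) [Group G] : Subgroup G :=
  sSup {N : Subgroup G | N.Normal ∧ Group.IsSolvable N}

/-- The soluble graph of `G`: the vertices are the elements outside the soluble radical, and two
distinct vertices are adjacent when they generate a soluble subgroup. -/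
def solGraph (G : Type*) [Group G] : SimpleGraph {x : G // x ∉ solRadical G} where
  Adj x y := x ≠ y ∧ Group.IsSolvable (closure ({x.1, y.1} : Set G))
  symm := ⟨by
    rintro x y ⟨h1, h2⟩
    refine ⟨h1.symm, ?_⟩
    rwa [Set.pair_comm]⟩
  loopless := ⟨fun x h => h.1 rfl⟩

/-- `x` and `y` generate a soluble subgroup. -/
def SolAdj {G : Type*} [Group G] (x y : G) : Prop := Group.IsSolvable (closure ({x, y} : Set G))

theorem SolAdj.symm {G : Type*} [Group G] {x y : G} (h : SolAdj x y) : SolAdj y x := by
  unfold SolAdj at h ⊢
  rwa [Set.pair_comm]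

/-- Criterion in a group generated by `y` and `z`. -/
theorem sol_top {G : Type*} [Group G] {y z : G} (hg : closure ({y, z} : Set G) = ⊤) (C : Set G)
    (hz : z ∈ C) (hC : ∀ f ∈ C, ∀ g ∈ C, f * g = g * f) (h1 : ∀ f ∈ C, y * f * y⁻¹ ∈ C)
    (h2 : ∀ f ∈ C, y⁻¹ * f * y ∈ C) : Group.IsSolvable G := by
  set A : Subgroup G := closure C with hA
  have hcomm : ∀ a b : A, a * b = b * a := by
    intro a b
    exact (isMulCommutative_closure hC).is_comm.comm a b
  have hAs : Group.IsSolvable A := Group.isSolvable_of_comm hcomm
  have hyA : ∀ a ∈ A, y * a * y⁻¹ ∈ A := by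
    intro a ha
    have hle : A ≤ A.comap (MulAut.conj y).toMonoidHom := by
      rw [hA, closure_le]
      intro f hf
      exact subset_closure (h1 f hf)
    exact hle ha
  have hyA' : ∀ a ∈ A, y⁻¹ * a * y ∈ A := by
    intro a ha
    have hle : A ≤ A.comap (MulAut.conj y⁻¹).toMonoidHom := by
      rw [hA, closure_le]
      intro f hf
      have := h2 f hf
      have e : (MulAut.conj y⁻¹).toMonoidHom f = y⁻¹ * f * y := by
        simp [MulAut.conj_apply]
      rw [SetLike.mem_coe, mem_comap, e]
      exact subset_closure this
    have := hle ha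
    change y⁻¹ * a * y⁻¹⁻¹ ∈ A at this
    rwa [inv_inv] at this
  have hN : normalizer (A : Set G) = ⊤ := by
    rw [eq_top_iff, ← hg, closure_le]
    intro g hgm
    rcases hgm with rfl | rfl
    · rw [SetLike.mem_coe, mem_normalizer_iff]
      intro a
      refine ⟨hyA a, fun ha => ?_⟩
      have := hyA' _ ha
      have e : g⁻¹ * (g * a * g⁻¹) * g = a := by group
      rwa [e] at this
    · exact le_normalizer (subset_closure hz)
  have hAn : A.Normal := normalizer_eq_top_iff.mp hN
  have hQ : Group.IsSolvable (G ⧸ A) := by
    apply Group.isSolvable_of_comm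
    have hcyc : ∀ g : G ⧸ A, g ∈ zpowers (QuotientGroup.mk y : G ⧸ A) := by
      have hle : closure ({y, z} : Set G) ≤
          (zpowers (QuotientGroup.mk y : G ⧸ A)).comap (QuotientGroup.mk' A) := by
        rw [closure_le]
        intro g hgm
        rcases hgm with rfl | rfl
        · exact mem_zpowers _
        · have h0 : (QuotientGroup.mk' A) g = 1 := by
            rw [QuotientGroup.mk'_apply, QuotientGroup.eq_one_iff]
            exact subset_closure hz
          rw [SetLike.mem_coe, mem_comap, h0]
          exact one_mem _
      intro g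
      obtain ⟨g, rfl⟩ := QuotientGroup.mk_surjective g
      have : g ∈ closure ({y, z} : Set G) := by rw [hg]; trivial
      exact hle this
    intro a b
    obtain ⟨i, rfl⟩ := mem_zpowers_iff.mp (hcyc a)
    obtain ⟨j, rfl⟩ := mem_zpowers_iff.mp (hcyc b)
    rw [← zpow_add, ← zpow_add, add_comm]
  exact (Group.isSolvable_iff_subgroup_quotient A).mpr ⟨hAs, hQ⟩

/-- Criterion: if `z` lies in a set of pairwise commuting elements that is stable under
conjugation by `y`, then `y` and `z` generate a soluble subgroup. -/
theorem sol_crit {G : Type*} [Group G] {y z : G} (C : Set G)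
    (hz : z ∈ C) (hC : ∀ f ∈ C, ∀ g ∈ C, f * g = g * f) (h1 : ∀ f ∈ C, y * f * y⁻¹ ∈ C)
    (h2 : ∀ f ∈ C, y⁻¹ * f * y ∈ C) : SolAdj y z := by
  unfold SolAdj
  set K : Subgroup G := closure ({y, z} : Set G) with hK
  have hy : y ∈ K := subset_closure (by simp)
  have hz' : z ∈ K := subset_closure (by simp)
  refine sol_top (y := (⟨y, hy⟩ : K)) (z := ⟨z, hz'⟩) ?_ {f : K | (f : G) ∈ C} hz ?_ ?_ ?_
  · have h := closure_closure_coe_preimage (k := ({y, z} : Set G))
    have e : (((↑) : closure ({y, z} : Set G) → G) ⁻¹' ({y, z} : Set G)) =
        ({⟨y, hy⟩, ⟨z, hz'⟩} : Set K) := by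
      ext g
      simp only [Set.mem_preimage, Set.mem_insert_iff, Set.mem_singleton_iff]
      rw [Subtype.ext_iff, Subtype.ext_iff]
    rw [e] at h
    exact h
  · intro f hf g hg
    exact Subtype.ext (hC f hf g hg)
  · intro f hf
    exact h1 f hf
  · intro f hf
    exact h2 f hf

/-- If `t` is an involution and `g` commutes with its conjugate by `t`, then `t` and `g` generate
a soluble subgroup. -/
theorem sol_inv {G : Type*} [Group G] {t g : G} (ht : t * t = 1)
    (hg : g * (t * g * t) = (t * g * t) * g) : SolAdj t g := by
  have hti : t⁻¹ = t := inv_eq_of_mul_eq_one_left ht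
  have e : t * (t * g * t) * t = g := by
    calc t * (t * g * t) * t = (t * t) * g * (t * t) := by group
      _ = g := by rw [ht]; group
  refine sol_crit {g, t * g * t} (by simp) ?_ ?_ ?_
  · rintro f (rfl | rfl) k (rfl | rfl)
    · rfl
    · exact hg
    · exact hg.symm
    · rfl
  · rintro f (rfl | rfl)
    · rw [hti]; simp
    · rw [hti, e]; simp
  · rintro f (rfl | rfl)
    · rw [hti]; simp
    · rw [hti, e]; simp

/-- Two involutions generate a soluble subgroup. -/
theorem sol_two_inv {G : Type*} [Group G] {s t : G} (hs : s * s = 1) (ht : t * t = 1) :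
    SolAdj s t := by
  have hsi : s⁻¹ = s := inv_eq_of_mul_eq_one_left hs
  have hti : t⁻¹ = t := inv_eq_of_mul_eq_one_left ht
  have h1 : SolAdj s (s * t) := by
    refine sol_inv hs ?_
    have e1 : s * (s * t) * s = t * s := by
      calc s * (s * t) * s = (s * s) * t * s := by group
        _ = t * s := by rw [hs, one_mul]
    rw [e1]
    have e2 : s * t * (t * s) = 1 := by
      calc s * t * (t * s) = s * (t * t) * s := by group
        _ = 1 := by rw [ht, mul_one, hs]
    have e3 : t * s * (s * t) = 1 := by
      calc t * s * (s * t) = t * (s * s) * t := by group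
        _ = 1 := by rw [hs, mul_one, ht]
    rw [e2, e3]
  unfold SolAdj at h1 ⊢
  have hle : closure ({s, t} : Set G) ≤ closure ({s, s * t} : Set G) := by
    rw [closure_le]
    have hs' : s ∈ closure ({s, s * t} : Set G) := subset_closure (by simp)
    have hst' : s * t ∈ closure ({s, s * t} : Set G) := subset_closure (by simp)
    rintro g (rfl | rfl)
    · exact hs'
    · have := mul_mem (inv_mem hs') hst'
      have e : s⁻¹ * (s * g) = g := by group
      rw [e] at this
      exact this
  exact Group.isSolvable_of_isSolvable_injective (inclusion_injective hle)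

/-- The relation is inherited along homomorphisms. -/
theorem SolAdj.map {G H : Type*} [Group G] [Group H] {x y : G} (f : G →* H) (h : SolAdj x y) :
    SolAdj (f x) (f y) := by
  unfold SolAdj at h ⊢
  have e : (closure ({x, y} : Set G)).map f = closure ({f x, f y} : Set H) := by
    rw [MonoidHom.map_closure, Set.image_pair]
  rw [← e]
  exact Group.isSolvable_of_surjective (f.subgroupMap_surjective (closure ({x, y} : Set G)))

/-- The relation can be tested in a larger group. -/
theorem SolAdj.of_map {G H : Type*} [Group G] [Group H] {x y : G} (f : G →* H)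
    (hf : Function.Injective f) (h : SolAdj (f x) (f y)) : SolAdj x y := by
  unfold SolAdj at h ⊢
  have e : (closure ({x, y} : Set G)).map f = closure ({f x, f y} : Set H) := by
    rw [MonoidHom.map_closure, Set.image_pair]
  rw [← e] at h
  exact Group.isSolvable_of_isSolvable_injective
    (f := ((closure ({x, y} : Set G)).equivMapOfInjective f hf).toMonoidHom)
    ((closure ({x, y} : Set G)).equivMapOfInjective f hf).injective

end H35Sol
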