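import Pool.Agent.H35.Sol.Refl

/-!
Every nontrivial even permutation that is not a long cycle of odd length is adjacent to an even
involution.
-/

set_option autoImplicit false

namespace H35Sol

open Subgroup Equiv Equiv.Perm

private theorem refl_conj {α : Type*} [Fintype α] [DecidableEq α] {g c r : Perm α}
    (hc : c ∈ g.cycleFactorsFinset) (hr : r * r = 1) (hrc : r * c * r = c⁻¹)
    (hout : ∀ x, x ∉ c.support → r x = x) :
    r * g * r = g * (c⁻¹ * c⁻¹) ∧ g * c = c * g := by
  have hd : Perm.Disjoint (g * c⁻¹) c := disjoint_mul_inv_of_mem_cycleFactorsFinset hc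
  set h : Perm α := g * c⁻¹ with hh
  have hg : g = h * c := by rw [hh]; group
  have hhc : h * c = c * h := hd.commute.eq
  have hrh : r * h = h * r := by
    have : Perm.Disjoint r h := by
      intro x
      by_cases hx : x ∈ c.support
      · right
        rcases hd x with h1 | h1
        · exact h1
        · rw [mem_support] at hx
          exact absurd h1 hx
      · left
        exact hout x hx
    exact this.commute.eq
  constructor
  · rw [hg]
    calc r * (h * c) * r = (r * h) * c * r := by group
      _ = h * (r * c * r) := by rw [hrh]; group
      _ = h * c⁻¹ := by rw [hrc]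
      _ = h * c * (c⁻¹ * c⁻¹) := by group
  · rw [hg]
    calc h * c * c = (c * h) * c := by rw [hhc]
      _ = c * (h * c) := by group

private theorem odd_card {α : Type*} [Fintype α] [DecidableEq α] {g c : Perm α}
    (hodd : Odd (orderOf g)) (hc : c ∈ g.cycleFactorsFinset) : Odd c.support.card := by
  have hcyc := (mem_cycleFactorsFinset_iff.mp hc).1
  have h1 : c.support.card ∣ orderOf g := by
    apply dvd_of_mem_cycleType
    rw [cycleType_def]
    exact Multiset.mem_map_of_mem _ hc
  exact Odd.of_dvd_nat hodd h1

theorem exists_even_inv {α : Type*} [Fintype α] [DecidableEq α] {g : Perm α} (hg : g ≠ 1)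
    (hev : Perm.sign g = 1)
    (hex : ¬ (g.IsCycle ∧ Odd g.support.card ∧ Fintype.card α ≤ g.support.card + 1)) :
    ∃ t : Perm α, t * t = 1 ∧ t ≠ 1 ∧ Perm.sign t = 1 ∧ SolAdj g t := by
  classical
  rcases Nat.even_or_odd (orderOf g) with hord | hord
  · obtain ⟨k, hk⟩ := hord
    have hpos : 0 < orderOf g := orderOf_pos g
    have hk0 : 0 < k := by omega
    refine ⟨g ^ k, ?_, ?_, ?_, ?_⟩
    · rw [← pow_add, ← hk, pow_orderOf_eq_one]
    · intro hc
      have := orderOf_dvd_of_pow_eq_one hc
      have := Nat.le_of_dvd hk0 this
      omega
    · rw [map_pow, hev, one_pow]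
    · have ht : g ^ k * g ^ k = 1 := by rw [← pow_add, ← hk, pow_orderOf_eq_one]
      refine (sol_inv ht ?_).symm
      have e : g ^ k * g * g ^ k = g := by
        rw [← pow_succ, pow_succ', mul_assoc, ht, mul_one]
      rw [e]
  · have hne : g.cycleFactorsFinset.Nonempty := by
      rw [Finset.nonempty_iff_ne_empty, Ne, cycleFactorsFinset_eq_empty_iff]
      exact hg
    have hcd : ∀ c ∈ g.cycleFactorsFinset, ∃ r : Perm α, r * r = 1 ∧ r * c * r = c⁻¹ ∧
        (∀ x, x ∉ c.support → r x = x) ∧
        Perm.sign r = (-1) ^ ((c.support.card - 1) / 2) ∧ r ≠ 1 := by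
      intro c hc
      have hcyc := (mem_cycleFactorsFinset_iff.mp hc).1
      obtain ⟨r, h1, h2, h3, h4, h5⟩ := exists_refl hcyc (odd_card hord hc)
      refine ⟨r, h1, h2, h3, h4, ?_⟩
      intro hr1
      rw [hr1, support_one, Finset.card_empty] at h5
      have := hcyc.two_le_card_support
      omega
    by_cases hB1 : ∃ c ∈ g.cycleFactorsFinset, Even ((c.support.card - 1) / 2)
    · obtain ⟨c, hc, he⟩ := hB1
      obtain ⟨r, h1, h2, h3, h4, h5⟩ := hcd c hc
      refine ⟨r, h1, h5, by rw [h4, he.neg_one_pow], ?_⟩
      obtain ⟨h6, h7⟩ := refl_conj hc h1 h2 h3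
      refine (sol_inv h1 ?_).symm
      rw [h6]
      have h8 : g * c⁻¹ = c⁻¹ * g := by
        have : Commute g c := h7
        exact this.inv_right.eq
      calc g * (g * (c⁻¹ * c⁻¹)) = g * ((g * c⁻¹) * c⁻¹) := by group
        _ = g * (c⁻¹ * g * c⁻¹) := by rw [h8]
        _ = (g * c⁻¹) * (g * c⁻¹) := by group
        _ = (g * c⁻¹) * (c⁻¹ * g) := by rw [h8]
        _ = g * (c⁻¹ * c⁻¹) * g := by group
    · push Not at hB1
      obtain ⟨c, hc⟩ := hne
      by_cases hB2 : ∃ d ∈ g.cycleFactorsFinset, d ≠ c
      · obtain ⟨d, hd, hdc⟩ := hB2
        obtain ⟨r, r1, r2, r3, r4, r5⟩ := hcd c hc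
        obtain ⟨s, s1, s2, s3, s4, s5⟩ := hcd d hd
        obtain ⟨r6, r7⟩ := refl_conj hc r1 r2 r3
        obtain ⟨s6, s7⟩ := refl_conj hd s1 s2 s3
        have hdis : Perm.Disjoint c d :=
          cycleFactorsFinset_pairwise_disjoint g hc hd hdc.symm
        have hrs : Perm.Disjoint r s := by
          intro x
          rcases hdis x with h | h
          · left
            exact r3 x (by rw [mem_support, not_not]; exact h)
          · right
            exact s3 x (by rw [mem_support, not_not]; exact h)
        have hrd : Perm.Disjoint r d := by
          intro x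
          rcases hdis x with h | h
          · left
            exact r3 x (by rw [mem_support, not_not]; exact h)
          · right
            exact h
        have hrs' : r * s = s * r := hrs.commute.eq
        have hrd' : r * d = d * r := hrd.commute.eq
        have hrdi : r * d⁻¹ = d⁻¹ * r := hrd.commute.inv_right.eq
        have hodd1 : Perm.sign r = -1 := by
          rw [r4]
          exact (Nat.not_even_iff_odd.mp (hB1 c hc)).neg_one_pow
        have hodd2 : Perm.sign s = -1 := by
          rw [s4]
          exact (Nat.not_even_iff_odd.mp (hB1 d hd)).neg_one_pow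
        have htt : r * s * (r * s) = 1 := by
          calc r * s * (r * s) = r * (s * r) * s := by group
            _ = (r * r) * (s * s) := by rw [← hrs']; group
            _ = 1 := by rw [r1, s1, mul_one]
        refine ⟨r * s, htt, ?_, ?_, ?_⟩
        · intro hc1
          have : s = r := by
            calc s = (r * r) * s := by rw [r1, one_mul]
              _ = r * (r * s) := by group
              _ = r := by rw [hc1, mul_one]
          apply r5
          ext x
          rcases hrs x with h | h
          · exact h
          · rw [this] at h
            exact h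
        · rw [map_mul, hodd1, hodd2]
          norm_num
        · refine (sol_inv htt ?_).symm
          have e1 : r * s * g * (r * s) = g * (c⁻¹ * c⁻¹) * (d⁻¹ * d⁻¹) := by
            calc r * s * g * (r * s) = r * s * g * (s * r) := by rw [hrs']
              _ = r * (s * g * s) * r := by group
              _ = r * g * (d⁻¹ * d⁻¹) * r := by rw [s6]; group
              _ = r * g * (d⁻¹ * (d⁻¹ * r)) := by group
              _ = r * g * (d⁻¹ * (r * d⁻¹)) := by rw [hrdi]
              _ = r * g * ((d⁻¹ * r) * d⁻¹) := by group
              _ = r * g * ((r * d⁻¹) * d⁻¹) := by rw [hrdi]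
              _ = (r * g * r) * (d⁻¹ * d⁻¹) := by group
              _ = g * (c⁻¹ * c⁻¹) * (d⁻¹ * d⁻¹) := by rw [r6]
          rw [e1]
          have hgc : Commute g c⁻¹ := (show Commute g c from r7).inv_right
          have hgd : Commute g d⁻¹ := (show Commute g d from s7).inv_right
          have : Commute g (g * (c⁻¹ * c⁻¹) * (d⁻¹ * d⁻¹)) :=
            ((Commute.refl g).mul_right (hgc.mul_right hgc)).mul_right (hgd.mul_right hgd)
          exact this.eq
      · push Not at hB2
        have hsing : g.cycleFactorsFinset = {c} := by
          ext d
          rw [Finset.mem_singleton]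
          exact ⟨fun hd => hB2 d hd, fun hd => by rw [hd]; exact hc⟩
        obtain ⟨hcyc, hgc⟩ := cycleFactorsFinset_eq_singleton_iff.mp hsing
        subst hgc
        have hodd := odd_card hord hc
        have hlt : g.support.card + 1 < Fintype.card α := by
          by_contra hcon
          exact hex ⟨hcyc, hodd, not_lt.mp hcon⟩
        have hcompl : 1 < (g.supportᶜ : Finset α).card := by
          rw [Finset.card_compl]
          omega
        obtain ⟨u, hu, v, hv, huv⟩ := Finset.one_lt_card.mp hcompl
        rw [Finset.mem_compl] at hu hv
        obtain ⟨r, r1, r2, r3, r4, r5⟩ := hcd g hc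
        have hodd1 : Perm.sign r = -1 := by
          rw [r4]
          exact (Nat.not_even_iff_odd.mp (hB1 g hc)).neg_one_pow
        have hgu : g u = u := by rwa [mem_support, not_not] at hu
        have hgv : g v = v := by rwa [mem_support, not_not] at hv
        have hru := r3 u hu
        have hrv := r3 v hv
        have hsr : swap u v * r = r * swap u v := by
          have := mul_swap_eq_swap_mul r u v
          rw [hru, hrv] at this
          exact this.symm
        have hsg : swap u v * g = g * swap u v := by
          have := mul_swap_eq_swap_mul g u v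
          rw [hgu, hgv] at this
          exact this.symm
        have hss : swap u v * swap u v = 1 := swap_mul_self u v
        have htt : r * swap u v * (r * swap u v) = 1 := by
          calc r * swap u v * (r * swap u v) = r * (swap u v * r) * swap u v := by group
            _ = (r * r) * (swap u v * swap u v) := by rw [hsr]; group
            _ = 1 := by rw [r1, hss, mul_one]
        refine ⟨r * swap u v, htt, ?_, ?_, ?_⟩
        · intro h1
          have h2 : (r * swap u v) u = u := by rw [h1]; rfl
          rw [Perm.mul_apply, swap_apply_left, hrv] at h2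
          exact huv h2.symm
        · rw [map_mul, hodd1, sign_swap huv]
          norm_num
        · refine (sol_inv htt ?_).symm
          have e1 : r * swap u v * g * (r * swap u v) = g⁻¹ := by
            calc r * swap u v * g * (r * swap u v) = r * (swap u v * g) * (r * swap u v) := by
                  group
              _ = r * g * (swap u v * r) * swap u v := by rw [hsg]; group
              _ = (r * g * r) * (swap u v * swap u v) := by rw [hsr]; group
              _ = g⁻¹ := by rw [r2, hss, mul_one]
          rw [e1, mul_inv_cancel, inv_mul_cancel]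

end H35Sol
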