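import Pool.Agent.H35.Sol.Cyc
import Pool.Agent.H35.Sol.Inv

/-!
The soluble graph of the alternating groups of degree `q` and `q + 1`, `q = 3 mod 4` prime.
-/

set_option autoImplicit false

namespace H35Sol

open Subgroup Equiv Equiv.Perm

theorem exists_qc {q : ℕ} [hq : Fact q.Prime] {α : Type*} [Fintype α] [DecidableEq α]
    {x : Perm α} (hx : x.IsCycle) (hs : x.support.card = q) (hα : Fintype.card α ≤ q + 1) :
    ∃ φ : ZMod q ↪ α, QC x φ := by
  classical
  haveI : NeZero q := ⟨hq.out.ne_zero⟩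
  have hord : orderOf x = q := by rw [hx.orderOf, hs]
  have hne : x.support.Nonempty := by
    rw [← Finset.card_pos, hs]
    exact hq.out.pos
  obtain ⟨a, ha⟩ := hne
  have hxa : x a ≠ a := mem_support.mp ha
  have hinj : Function.Injective (fun k : ZMod q => (x ^ k.val) a) := by
    intro i j hij
    have h1 : x ^ i.val = x ^ j.val := hx.pow_eq_pow_iff.mpr ⟨a, hxa, hij⟩
    have h2 : i.val = j.val := by
      apply pow_injOn_Iio_orderOf (x := x)
      · rw [Set.mem_Iio, hord]; exact ZMod.val_lt i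
      · rw [Set.mem_Iio, hord]; exact ZMod.val_lt j
      · exact h1
    exact ZMod.val_injective q h2
  set φ : ZMod q ↪ α := ⟨fun k => (x ^ k.val) a, hinj⟩ with hφ
  have hφa : ∀ k, φ k = (x ^ k.val) a := fun k => rfl
  have hstep : ∀ k, x (φ k) = φ (k + 1) := by
    intro k
    haveI : Fact (1 < q) := ⟨hq.out.one_lt⟩
    rw [hφa, hφa, ZMod.val_add, ZMod.val_one]
    have h1 : x ^ ((k.val + 1) % q) = x ^ (k.val + 1) := by
      have h2 := pow_mod_orderOf x (k.val + 1)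
      rw [hord] at h2
      exact h2
    rw [h1, pow_succ', Perm.mul_apply]
  have hrange : Finset.univ.map φ = x.support := by
    apply Finset.eq_of_subset_of_card_le
    · intro u hu
      rw [Finset.mem_map] at hu
      obtain ⟨k, _, rfl⟩ := hu
      rw [hφa]
      exact pow_apply_mem_support.mpr ha
    · rw [Finset.card_map, Finset.card_univ, ZMod.card, hs]
  have hmem : ∀ u, u ∈ Set.range φ ↔ u ∈ x.support := by
    intro u
    rw [← hrange, Finset.mem_map]
    constructor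
    · rintro ⟨k, rfl⟩
      exact ⟨k, Finset.mem_univ _, rfl⟩
    · rintro ⟨k, _, rfl⟩
      exact ⟨k, rfl⟩
  refine ⟨φ, ?_, ?_⟩
  · ext u
    rw [viaEmbeddingHom_apply]
    by_cases hu : u ∈ Set.range φ
    · obtain ⟨k, rfl⟩ := hu
      rw [viaEmbedding_apply, hstep]
      rfl
    · rw [viaEmbedding_apply_of_notMem _ _ _ hu]
      rw [hmem, mem_support, not_not] at hu
      exact hu
  · intro u v hu hv
    rw [hmem] at hu hv
    have h1 : (x.supportᶜ : Finset α).card ≤ 1 := by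
      rw [Finset.card_compl, hs]
      omega
    exact Finset.card_le_one.mp h1 u (Finset.mem_compl.mpr hu) v (Finset.mem_compl.mpr hv)

/-- The double transpositions are even involutions. -/
theorem swap2_inv {α : Type*} [Fintype α] [DecidableEq α] {a b c d : α} (hab : a ≠ b)
    (hac : a ≠ c) (had : a ≠ d) (hbc : b ≠ c) (hbd : b ≠ d) (hcd : c ≠ d) :
    Perm.sign (swap a b * swap c d) = 1 ∧ swap a b * swap c d ≠ 1 ∧
      swap a b * swap c d * (swap a b * swap c d) = 1 := by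
  refine ⟨?_, ?_, ?_⟩
  · rw [map_mul, sign_swap hab, sign_swap hcd]
    norm_num
  · intro h
    have h1 : (swap a b * swap c d) d = d := by rw [h]; rfl
    rw [Perm.mul_apply, swap_apply_right, swap_apply_of_ne_of_ne hac.symm hbc.symm] at h1
    exact hcd h1
  · have h1 := mul_swap_eq_swap_mul (swap c d) a b
    rw [swap_apply_of_ne_of_ne hac had, swap_apply_of_ne_of_ne hbc hbd] at h1
    calc swap a b * swap c d * (swap a b * swap c d)
        = swap a b * (swap c d * swap a b) * swap c d := by group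
      _ = (swap a b * swap a b) * (swap c d * swap c d) := by rw [h1]; group
      _ = 1 := by rw [swap_mul_self, swap_mul_self, mul_one]

/-- The walk of length four. -/
theorem path4 {q : ℕ} [hq : Fact q.Prime] (h4 : q % 4 = 3) (h7 : 7 ≤ q) {α : Type*} [Fintype α]
    [DecidableEq α] (hα : Fintype.card α = q ∨ Fintype.card α = q + 1) {x y : Perm α}
    (hx1 : x ≠ 1) (hy1 : y ≠ 1) (hxs : Perm.sign x = 1) (hys : Perm.sign y = 1) :
    ∃ a b c : Perm α, (Perm.sign a = 1 ∧ a ≠ 1) ∧ (Perm.sign b = 1 ∧ b ≠ 1) ∧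
      (Perm.sign c = 1 ∧ c ≠ 1) ∧ SolAdj x a ∧ SolAdj a b ∧ SolAdj b c ∧ SolAdj c y := by
  have hcase : ∀ x : Perm α, x ≠ 1 → Perm.sign x = 1 →
      (∃ t : Perm α, t * t = 1 ∧ t ≠ 1 ∧ Perm.sign t = 1 ∧ SolAdj x t) ∨
        ∃ φ : ZMod q ↪ α, QC x φ := by
    intro x hx hs
    by_cases h : x.IsCycle ∧ Odd x.support.card ∧ Fintype.card α ≤ x.support.card + 1
    · right
      obtain ⟨h1, h2, h3⟩ := h
      have h5 : x.support.card ≤ Fintype.card α := Finset.card_le_univ _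
      have h6 := Nat.odd_iff.mp h2
      refine exists_qc h1 ?_ ?_
      · rcases hα with h | h <;> omega
      · rcases hα with h | h <;> omega
    · left
      exact exists_even_inv hx hs h
  rcases hcase x hx1 hxs with ⟨s, s1, s2, s3, s4⟩ | ⟨φ, hφ⟩
  · rcases hcase y hy1 hys with ⟨t, t1, t2, t3, t4⟩ | ⟨ψ, hψ⟩
    · exact ⟨s, t, t, ⟨s3, s2⟩, ⟨t3, t2⟩, ⟨t3, t2⟩, s4, sol_two_inv s1 t1, sol_two_inv t1 t1,
        t4.symm⟩
    · obtain ⟨a, b, c, d, hab, hac, had, hbc, hbd, hcd, hM, -, -⟩ := exists_four hψ h4 h7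
      obtain ⟨z1, z2, z3⟩ := swap2_inv hab hac had hbc hbd hcd
      obtain ⟨w, w1, w2, w3, w4⟩ := hM
      exact ⟨s, _, w, ⟨s3, s2⟩, ⟨z1, z2⟩, ⟨w1, w2⟩, s4, sol_two_inv s1 z3, w4.symm, w3.symm⟩
  · rcases hcase y hy1 hys with ⟨t, t1, t2, t3, t4⟩ | ⟨ψ, hψ⟩
    · obtain ⟨a, b, c, d, hab, hac, had, hbc, hbd, hcd, hM, -, -⟩ := exists_four hφ h4 h7
      obtain ⟨z1, z2, z3⟩ := swap2_inv hab hac had hbc hbd hcd
      obtain ⟨w, w1, w2, w3, w4⟩ := hM
      exact ⟨w, _, t, ⟨w1, w2⟩, ⟨z1, z2⟩, ⟨t3, t2⟩, w3, w4, sol_two_inv z3 t1, t4.symm⟩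
    · obtain ⟨a, b, c, d, hab, hac, had, hbc, hbd, hcd, hM1, hM2, hM3⟩ := exists_four hφ h4 h7
      rcases four_all hψ h4 h7 hab hac had hbc hbd hcd with h | h | h
      · obtain ⟨z1, z2, z3⟩ := swap2_inv hab hac had hbc hbd hcd
        obtain ⟨w, w1, w2, w3, w4⟩ := hM1
        obtain ⟨v, v1, v2, v3, v4⟩ := h
        exact ⟨w, _, v, ⟨w1, w2⟩, ⟨z1, z2⟩, ⟨v1, v2⟩, w3, w4, v4.symm, v3.symm⟩
      · obtain ⟨z1, z2, z3⟩ := swap2_inv hac hab had hbc.symm hcd hbd
        obtain ⟨w, w1, w2, w3, w4⟩ := hM2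
        obtain ⟨v, v1, v2, v3, v4⟩ := h
        exact ⟨w, _, v, ⟨w1, w2⟩, ⟨z1, z2⟩, ⟨v1, v2⟩, w3, w4, v4.symm, v3.symm⟩
      · obtain ⟨z1, z2, z3⟩ := swap2_inv had hab hac hbd.symm hcd.symm hbc
        obtain ⟨w, w1, w2, w3, w4⟩ := hM3
        obtain ⟨v, v1, v2, v3, v4⟩ := h
        exact ⟨w, _, v, ⟨w1, w2⟩, ⟨z1, z2⟩, ⟨v1, v2⟩, w3, w4, v4.symm, v3.symm⟩

theorem not_solvable_alt {n : ℕ} (hn : 5 ≤ n) :
    ¬ Group.IsSolvable (alternatingGroup (Fin n)) := by
  intro h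
  have h1 : ¬ Group.IsSolvable (Perm (Fin n)) := by
    apply Equiv.Perm.not_isSolvable
    rw [Cardinal.mk_fin]
    exact_mod_cast hn
  apply h1
  refine Group.isSolvable_of_ker_le_range (alternatingGroup (Fin n)).subtype
    (Perm.sign (α := Fin n)) ?_
  intro g hg
  exact ⟨⟨g, hg⟩, rfl⟩

theorem solRadical_alt {n : ℕ} (hn : 5 ≤ n) :
    solRadical (alternatingGroup (Fin n)) = ⊥ := by
  unfold solRadical
  rw [sSup_eq_bot]
  rintro N ⟨hN, hs⟩
  haveI : IsSimpleGroup (alternatingGroup (Fin n)) :=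
    alternatingGroup.isSimpleGroup (by rw [Nat.card_fin]; exact hn)
  rcases hN.eq_bot_or_eq_top with h | h
  · exact h
  · exfalso
    apply not_solvable_alt hn
    subst h
    exact Group.isSolvable_of_surjective (f := (⊤ : Subgroup (alternatingGroup (Fin n))).subtype)
      (fun g => ⟨⟨g, trivial⟩, rfl⟩)

/-- The soluble graph of the alternating group of degree `q` or `q + 1` has diameter at most
four. -/
theorem ediam_le {q : ℕ} (hq : q.Prime) (h4 : q % 4 = 3) (h7 : 7 ≤ q) {n : ℕ}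
    (hn : n = q ∨ n = q + 1) : (solGraph (alternatingGroup (Fin n))).ediam ≤ 4 := by
  haveI : Fact q.Prime := ⟨hq⟩
  have hn5 : 5 ≤ n := by rcases hn with h | h <;> omega
  have hrad := solRadical_alt hn5
  rw [SimpleGraph.ediam_le_iff]
  rintro ⟨x, hx⟩ ⟨y, hy⟩
  have hx1 : (x : Perm (Fin n)) ≠ 1 := by
    intro h
    apply hx
    rw [hrad, mem_bot]
    exact Subtype.ext h
  have hy1 : (y : Perm (Fin n)) ≠ 1 := by
    intro h
    apply hy
    rw [hrad, mem_bot]
    exact Subtype.ext h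
  obtain ⟨a, b, c, ⟨a1, a2⟩, ⟨b1, b2⟩, ⟨c1, c2⟩, h1, h2, h3, h5⟩ :=
    path4 h4 h7 (α := Fin n) (by rw [Fintype.card_fin]; exact hn) hx1 hy1 x.2 y.2
  have hnot : ∀ g : alternatingGroup (Fin n), (g : Perm (Fin n)) ≠ 1 →
      g ∉ solRadical (alternatingGroup (Fin n)) := by
    intro g hg hc
    rw [hrad, mem_bot] at hc
    exact hg (by rw [hc]; rfl)
  have hinj : Function.Injective (alternatingGroup (Fin n)).subtype := Subtype.val_injective
  set G := solGraph (alternatingGroup (Fin n)) with hG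
  have hstep : ∀ u v : {x : alternatingGroup (Fin n) // x ∉ solRadical (alternatingGroup (Fin n))},
      SolAdj (u.1 : Perm (Fin n)) (v.1 : Perm (Fin n)) → G.edist u v ≤ 1 := by
    intro u v huv
    by_cases he : u = v
    · rw [he, SimpleGraph.edist_self]
      exact zero_le_one
    · have hadj : G.Adj u v := ⟨he, SolAdj.of_map (alternatingGroup (Fin n)).subtype hinj huv⟩
      exact (SimpleGraph.edist_eq_one_iff_adj.mpr hadj).le
  set A : {x : alternatingGroup (Fin n) // x ∉ solRadical (alternatingGroup (Fin n))} :=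
    ⟨⟨a, a1⟩, hnot _ a2⟩
  set B : {x : alternatingGroup (Fin n) // x ∉ solRadical (alternatingGroup (Fin n))} :=
    ⟨⟨b, b1⟩, hnot _ b2⟩
  set C : {x : alternatingGroup (Fin n) // x ∉ solRadical (alternatingGroup (Fin n))} :=
    ⟨⟨c, c1⟩, hnot _ c2⟩
  have e1 := hstep ⟨x, hx⟩ A h1
  have e2 := hstep A B h2
  have e3 := hstep B C h3
  have e4 := hstep C ⟨y, hy⟩ h5
  have t1 : G.edist ⟨x, hx⟩ ⟨y, hy⟩ ≤ G.edist ⟨x, hx⟩ A + G.edist A ⟨y, hy⟩ :=
    SimpleGraph.edist_triangle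
  have t2 : G.edist A ⟨y, hy⟩ ≤ G.edist A B + G.edist B ⟨y, hy⟩ := SimpleGraph.edist_triangle
  have t3 : G.edist B ⟨y, hy⟩ ≤ G.edist B C + G.edist C ⟨y, hy⟩ := SimpleGraph.edist_triangle
  calc G.edist ⟨x, hx⟩ ⟨y, hy⟩ ≤ 1 + (1 + (1 + 1)) :=
        t1.trans (add_le_add e1 (t2.trans (add_le_add e2 (t3.trans (add_le_add e3 e4)))))
    _ = 4 := by norm_num

end H35Sol
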