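import Pool.Agent.H35.Sol.Grp

/-!
The Paley tournament on `ZMod q`, `q = 3 mod 4`, and double transpositions.
-/

set_option autoImplicit false

namespace H35Sol

open Subgroup Equiv Equiv.Perm

theorem pinv1 {α : Type*} (y : Perm α) (t : α) : y (y⁻¹ t) = t := y.apply_symm_apply t

theorem pinv2 {α : Type*} (y : Perm α) (t : α) : y⁻¹ (y t) = t := y.symm_apply_apply t

/-- The permutations that move every point either not at all or by `W`. -/
def Wset {α : Type*} (W : α → α) : Set (Perm α) := {f | ∀ t, f t = t ∨ f t = W t}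

theorem Wset_comm {α : Type*} {W : α → α} (hW : ∀ t, W (W t) = t) :
    ∀ f ∈ Wset W, ∀ g ∈ Wset W, f * g = g * f := by
  have key : ∀ f ∈ Wset W, ∀ t, f t = t → f (W t) = W t := by
    intro f hf t ht
    rcases hf (W t) with h | h
    · exact h
    · rw [hW] at h
      have h1 : f (W t) = f t := by rw [h, ht]
      have h2 := f.injective h1
      rw [h2, ht]
  have key2 : ∀ f ∈ Wset W, ∀ t, f t = W t → f (W t) = t := by
    intro f hf t ht
    rcases hf (W t) with h | h
    · have h1 : f (W t) = f t := by rw [h, ht]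
      have h2 := f.injective h1
      rw [h, h2]
    · rw [h, hW]
  intro f hf g hg
  ext t
  rw [Perm.mul_apply, Perm.mul_apply]
  rcases hf t with h1 | h1
  · rcases hg t with h2 | h2
    · rw [h1, h2, h1]
    · rw [h1, h2, key f hf t h1]
  · rcases hg t with h2 | h2
    · rw [h1, h2, h1, key g hg t h2]
    · rw [h1, h2, key2 f hf t h1, key2 g hg t h2]

theorem Wset_conj {α : Type*} {W : α → α} {y : Perm α} (hy : ∀ t, W (y t) = y (W t)) :
    ∀ f ∈ Wset W, y * f * y⁻¹ ∈ Wset W := by
  intro f hf t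
  rw [Perm.mul_apply, Perm.mul_apply]
  rcases hf (y⁻¹ t) with h | h
  · left
    rw [h, pinv1]
  · right
    rw [h, ← hy, pinv1]

theorem Wset_conj' {α : Type*} {W : α → α} {y : Perm α} (hy : ∀ t, W (y t) = y (W t)) :
    ∀ f ∈ Wset W, y⁻¹ * f * y ∈ Wset W := by
  intro f hf t
  rw [Perm.mul_apply, Perm.mul_apply]
  rcases hf (y t) with h | h
  · left
    rw [h, pinv2]
  · right
    rw [h, hy, pinv2]

theorem swap2_Wset {α : Type*} [DecidableEq α] {W : α → α} {a b d e : α} (had : a ≠ d)
    (hae : a ≠ e) (hbd : b ≠ d) (hbe : b ≠ e) (wa : W a = b) (wb : W b = a) (wd : W d = e)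
    (we : W e = d) : swap a b * swap d e ∈ Wset W := by
  intro t
  rw [Perm.mul_apply]
  by_cases htd : t = d
  · right
    rw [htd, swap_apply_left, swap_apply_of_ne_of_ne hae.symm hbe.symm, wd]
  · by_cases hte : t = e
    · right
      rw [hte, swap_apply_right, swap_apply_of_ne_of_ne had.symm hbd.symm, we]
    · rw [swap_apply_of_ne_of_ne htd hte]
      by_cases hta : t = a
      · right
        rw [hta, swap_apply_left, wa]
      · by_cases htb : t = b
        · right
          rw [htb, swap_apply_right, wb]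
        · left
          rw [swap_apply_of_ne_of_ne hta htb]

theorem swap1_Wset {α : Type*} [DecidableEq α] {W : α → α} {a b : α} (wa : W a = b)
    (wb : W b = a) : swap a b ∈ Wset W := by
  intro t
  by_cases hta : t = a
  · right
    rw [hta, swap_apply_left, wa]
  · by_cases htb : t = b
    · right
      rw [htb, swap_apply_right, wb]
    · left
      rw [swap_apply_of_ne_of_ne hta htb]

/-- The affine map `t ↦ c + u (t - c)`. -/
def aff {q : ℕ} (c : ZMod q) (u : (ZMod q)ˣ) : Perm (ZMod q) where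
  toFun t := c + u * (t - c)
  invFun t := c + (u⁻¹ : (ZMod q)ˣ) * (t - c)
  left_inv t := by
    have h : ((u⁻¹ : (ZMod q)ˣ) : ZMod q) * u = 1 := Units.inv_mul u
    linear_combination (t - c) * h
  right_inv t := by
    have h : (u : ZMod q) * ((u⁻¹ : (ZMod q)ˣ) : ZMod q) = 1 := Units.mul_inv u
    linear_combination (t - c) * h

theorem aff_apply {q : ℕ} (c : ZMod q) (u : (ZMod q)ˣ) (t : ZMod q) :
    aff c u t = c + u * (t - c) := rfl

theorem aff_inv_apply {q : ℕ} (c : ZMod q) (u : (ZMod q)ˣ) (t : ZMod q) :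
    (aff c u)⁻¹ t = c + (u⁻¹ : (ZMod q)ˣ) * (t - c) := rfl

theorem aff_mul {q : ℕ} (c : ZMod q) (u v : (ZMod q)ˣ) :
    aff c u * aff c v = aff c (u * v) := by
  ext t
  rw [Perm.mul_apply, aff_apply, aff_apply, aff_apply]
  congr 1
  push_cast
  ring

/-- Affine maps and translations. -/
theorem sol_aff {q : ℕ} (c : ZMod q) (u : (ZMod q)ˣ) :
    SolAdj (aff c u) (Equiv.addRight (1 : ZMod q)) := by
  refine sol_crit {f : Perm (ZMod q) | ∃ s, ∀ t, f t = t + s} ⟨1, fun t => rfl⟩ ?_ ?_ ?_
  · rintro f ⟨s, hs⟩ g ⟨r, hr⟩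
    ext t
    rw [Perm.mul_apply, Perm.mul_apply, hs, hr, hs, hr, add_right_comm]
  · rintro f ⟨s, hs⟩
    refine ⟨u * s, fun t => ?_⟩
    rw [Perm.mul_apply, Perm.mul_apply, hs, aff_inv_apply, aff_apply]
    have h : (u : ZMod q) * ((u⁻¹ : (ZMod q)ˣ) : ZMod q) = 1 := Units.mul_inv u
    linear_combination (t - c) * h
  · rintro f ⟨s, hs⟩
    refine ⟨(u⁻¹ : (ZMod q)ˣ) * s, fun t => ?_⟩
    rw [Perm.mul_apply, Perm.mul_apply, hs, aff_inv_apply, aff_apply]
    have h : ((u⁻¹ : (ZMod q)ˣ) : ZMod q) * u = 1 := Units.inv_mul u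
    linear_combination (t - c) * h

section Pal

variable {q : ℕ} [hq : Fact q.Prime]

/-- The quadratic character. -/
noncomputable def qc (t : ZMod q) : ℤ := quadraticChar (ZMod q) t

theorem qc_mul (a b : ZMod q) : qc (a * b) = qc a * qc b := by
  unfold qc
  exact map_mul _ _ _

theorem qc_ne {a : ZMod q} (ha : a ≠ 0) : qc a = 1 ∨ qc a = -1 :=
  quadraticChar_dichotomy ha

theorem qc_zero : qc (0 : ZMod q) = 0 := by
  unfold qc
  exact quadraticChar_zero

theorem qc_inv (a : ZMod q) : qc a⁻¹ = qc a := by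
  by_cases ha : a = 0
  · rw [ha, inv_zero]
  · have h1 : qc a * qc a⁻¹ = 1 := by
      rw [← qc_mul, mul_inv_cancel₀ ha]
      unfold qc
      exact map_one _
    rcases qc_ne ha with h | h
    · rw [h] at h1 ⊢
      linarith
    · rw [h] at h1 ⊢
      linarith

theorem qc_sq {a : ZMod q} (ha : a ≠ 0) : qc (a * a) = 1 := by
  rw [qc_mul]
  rcases qc_ne ha with h | h <;> rw [h] <;> norm_num

theorem qc_neg (h4 : q % 4 = 3) (a : ZMod q) : qc (-a) = - qc a := by
  have h2 : ringChar (ZMod q) ≠ 2 := by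
    rw [ZMod.ringChar_zmod_n]
    intro h
    rw [h] at h4
    norm_num at h4
  have h1 : qc (-1 : ZMod q) = -1 := by
    unfold qc
    rw [quadraticChar_neg_one h2, ZMod.card]
    exact ZMod.χ₄_nat_three_mod_four h4
  have h3 : -a = (-1) * a := by ring
  rw [h3, qc_mul, h1]
  ring

/-- The involution attached to a centre `c` and a nonsquare `m`. -/
noncomputable def Wf (c m : ZMod q) (ε : ℤ) (t : ZMod q) : ZMod q :=
  if qc (t - c) = ε then c + m * (t - c) else c + m⁻¹ * (t - c)

theorem Wf_invol {c m : ZMod q} {ε : ℤ} (hm : qc m = -1) (hε : ε = 1 ∨ ε = -1) (t : ZMod q) :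
    Wf c m ε (Wf c m ε t) = t := by
  have hm0 : m ≠ 0 := by
    rintro rfl
    rw [qc_zero] at hm
    norm_num at hm
  have hε0 : ε ≠ 0 := by rcases hε with h | h <;> rw [h] <;> norm_num
  unfold Wf
  by_cases htc : t = c
  · rw [htc, sub_self, qc_zero, if_neg hε0.symm, mul_zero, add_zero, sub_self, qc_zero,
      if_neg hε0.symm, mul_zero, add_zero]
  · have ht : t - c ≠ 0 := sub_ne_zero.mpr htc
    by_cases h1 : qc (t - c) = ε
    · rw [if_pos h1, add_sub_cancel_left, qc_mul, hm, h1, if_neg (by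
        intro h
        apply hε0
        linarith)]
      rw [← mul_assoc, inv_mul_cancel₀ hm0]
      ring
    · rw [if_neg h1, add_sub_cancel_left, qc_mul, qc_inv, hm]
      have h2 : qc (t - c) = -ε := by
        rcases qc_ne ht with h | h <;> rcases hε with h' | h' <;> rw [h, h'] at h1 ⊢ <;>
          first | exact absurd rfl h1 | norm_num
      rw [h2, if_pos (by ring), ← mul_assoc, mul_inv_cancel₀ hm0]
      ring

theorem Wf_aff {c m : ZMod q} {ε : ℤ} {u : (ZMod q)ˣ} (hu : qc (u : ZMod q) = 1) (t : ZMod q) :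
    Wf c m ε (aff c u t) = aff c u (Wf c m ε t) := by
  unfold Wf
  have e : qc (aff c u t - c) = qc (t - c) := by
    rw [aff_apply, add_sub_cancel_left, qc_mul, hu, one_mul]
  rw [e]
  by_cases h1 : qc (t - c) = ε
  · rw [if_pos h1, if_pos h1, aff_apply, aff_apply]
    ring
  · rw [if_neg h1, if_neg h1, aff_apply, aff_apply]
    ring

/-- The double transposition `(a b)(d e)` moves points by the involution `Wf`. -/
theorem swap2_mem (h4 : q % 4 = 3) {a b d e : ZMod q} (hab : a ≠ b) (had : a ≠ d)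
    (hae : a ≠ e) (hbd : b ≠ d) (hbe : b ≠ e) (hde : d ≠ e) (h1 : qc (b - a) = qc (e - d)) (h2 : qc (d - a) = - qc (e - b)) :
    ∃ (c m : ZMod q) (ε : ℤ), qc m = -1 ∧ (ε = 1 ∨ ε = -1) ∧
      swap a b * swap d e ∈ Wset (Wf c m ε) := by
  have hs : b + d - a - e ≠ 0 := by
    intro h
    have e1 : d - a = e - b := by linear_combination h
    rw [e1] at h2
    rcases qc_ne (sub_ne_zero.mpr hbe.symm) with h3 | h3 <;> rw [h3] at h2 <;> norm_num at h2
  set s : ZMod q := b + d - a - e with hsd
  set c : ZMod q := (b * d - a * e) * s⁻¹ with hc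
  have hss : s * s⁻¹ = 1 := mul_inv_cancel₀ hs
  have hcs : c * s = b * d - a * e := by
    rw [hc]
    linear_combination (b * d - a * e) * hss
  have hac : (a - c) * s = (b - a) * (a - d) := by
    linear_combination -hcs + a * hsd
  have hbc : (b - c) * s = (b - a) * (b - e) := by
    linear_combination -hcs + b * hsd
  have hdc : (d - c) * s = (d - a) * (d - e) := by
    linear_combination -hcs + d * hsd
  have hec : (e - c) * s = (e - d) * (b - e) := by
    linear_combination -hcs + e * hsd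
  have hba0 : b - a ≠ 0 := sub_ne_zero.mpr hab.symm
  have had0 : a - d ≠ 0 := sub_ne_zero.mpr had
  have hbe0 : b - e ≠ 0 := sub_ne_zero.mpr hbe
  have hed0 : e - d ≠ 0 := sub_ne_zero.mpr hde.symm
  have hac0 : a - c ≠ 0 := by
    intro h
    rw [h, zero_mul] at hac
    exact mul_ne_zero hba0 had0 hac.symm
  have hbc0 : b - c ≠ 0 := by
    intro h
    rw [h, zero_mul] at hbc
    exact mul_ne_zero hba0 hbe0 hbc.symm
  have q1 : qc (a - c) * qc s = qc (b - a) * qc (a - d) := by rw [← qc_mul, ← qc_mul, hac]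
  have q2 : qc (b - c) * qc s = qc (b - a) * qc (b - e) := by rw [← qc_mul, ← qc_mul, hbc]
  have q3 : qc (d - c) * qc s = qc (d - a) * qc (d - e) := by rw [← qc_mul, ← qc_mul, hdc]
  have q4 : qc (e - c) * qc s = qc (e - d) * qc (b - e) := by rw [← qc_mul, ← qc_mul, hec]
  have n1 : qc (d - a) = - qc (a - d) := by rw [← qc_neg h4, neg_sub]
  have n2 : qc (e - b) = - qc (b - e) := by rw [← qc_neg h4, neg_sub]
  have n3 : qc (d - e) = - qc (e - d) := by rw [← qc_neg h4, neg_sub]
  have hqs := qc_ne hs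
  have hq1 := qc_ne hac0
  have hq2 := qc_ne hba0
  have hq3 := qc_ne had0
  have hq5 := qc_ne hbe0
  have hq6 := qc_ne hed0
  -- the characters of the four points
  have k1 : qc (b - c) = - qc (a - c) := by
    have h3 : qc (b - e) = - qc (a - d) := by
      rw [n1, n2] at h2
      linarith
    rw [h3] at q2
    rcases hqs with h | h <;> rw [h] at q1 q2 <;> linarith
  have k2 : qc (d - c) = qc (a - c) := by
    rw [n1, n3, ← h1] at q3
    rcases hqs with h | h <;> rw [h] at q1 q3 <;> linarith
  have k3 : qc (e - c) = - qc (a - c) := by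
    have h3 : qc (b - e) = - qc (a - d) := by
      rw [n1, n2] at h2
      linarith
    rw [h3, ← h1] at q4
    rcases hqs with h | h <;> rw [h] at q1 q4 <;> linarith
  set m : ZMod q := (b - c) * (a - c)⁻¹ with hm
  have hm1 : qc m = -1 := by
    rw [hm, qc_mul, qc_inv, k1]
    rcases hq1 with h | h <;> rw [h] <;> norm_num
  have hm0 : m ≠ 0 := by
    rintro h
    rw [h, qc_zero] at hm1
    norm_num at hm1
  have haa : (a - c) * (a - c)⁻¹ = 1 := mul_inv_cancel₀ hac0
  have hmm : m * m⁻¹ = 1 := mul_inv_cancel₀ hm0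
  have m1 : m * (a - c) = b - c := by
    rw [hm]
    linear_combination (b - c) * haa
  have m2 : m * (d - c) = e - c := by
    have hrel : (b - c) * (d - c) = (a - c) * (e - c) := by
      linear_combination -hcs - c * hsd
    rw [hm]
    linear_combination (a - c)⁻¹ * hrel + (e - c) * haa
  refine ⟨c, m, qc (a - c), hm1, hq1, ?_⟩
  have hne : qc (a - c) ≠ - qc (a - c) := by
    rcases hq1 with h | h <;> rw [h] <;> norm_num
  have wa : Wf c m (qc (a - c)) a = b := by
    unfold Wf
    rw [if_pos rfl, m1]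
    ring
  have wb : Wf c m (qc (a - c)) b = a := by
    unfold Wf
    rw [if_neg (by rw [k1]; exact hne.symm), ← m1]
    linear_combination (a - c) * hmm
  have wd : Wf c m (qc (a - c)) d = e := by
    unfold Wf
    rw [if_pos k2, m2]
    ring
  have we : Wf c m (qc (a - c)) e = d := by
    unfold Wf
    rw [if_neg (by rw [k3]; exact hne.symm), ← m2]
    linear_combination (d - c) * hmm
  exact swap2_Wset had hae hbd hbe wa wb wd we

end Pal

end H35Sol
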