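import Pool.Agent.H35.Sol.Grp

/-!
Reflections of cycles of odd length, and even involutions adjacent to a permutation.
-/

set_option autoImplicit false

namespace H35Sol

open Subgroup Equiv Equiv.Perm

/-- The reflection of a cycle of odd length. -/
theorem exists_refl {α : Type*} [Fintype α] [DecidableEq α] {σ : Perm α} (hσ : σ.IsCycle)
    (hodd : Odd σ.support.card) :
    ∃ r : Perm α, r * r = 1 ∧ r * σ * r = σ⁻¹ ∧ (∀ x, x ∉ σ.support → r x = x) ∧
      Perm.sign r = (-1) ^ ((σ.support.card - 1) / 2) ∧ r.support.card = σ.support.card - 1 := by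
  classical
  set e := hσ.zpowersEquivSupport with he
  set r : Perm α := ofSubtype (e.permCongr (Equiv.inv (zpowers σ))) with hr
  have hrin : ∀ g : zpowers σ, r (e g) = e g⁻¹ := by
    intro g
    rw [hr, ofSubtype_apply_coe, Equiv.permCongr_apply, Equiv.symm_apply_apply]
    rfl
  have hrout : ∀ x, x ∉ σ.support → r x = x := fun x hx => ofSubtype_apply_of_not_mem _ hx
  have hsurj : ∀ x ∈ σ.support, ∃ g : zpowers σ, (e g : α) = x := by
    intro x hx
    exact ⟨e.symm ⟨x, hx⟩, by rw [Equiv.apply_symm_apply]⟩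
  have hσe : ∀ g : zpowers σ, σ (e g) = e (⟨σ, mem_zpowers σ⟩ * g) := by
    intro g
    rfl
  have hcm : ∀ a b : zpowers σ, a * b = b * a := by
    rintro ⟨a, i, rfl⟩ ⟨b, j, rfl⟩
    apply Subtype.ext
    show σ ^ i * σ ^ j = σ ^ j * σ ^ i
    rw [← zpow_add, ← zpow_add, add_comm]
  have hrr : r * r = 1 := by
    ext x
    rw [Perm.mul_apply, Perm.one_apply]
    by_cases hx : x ∈ σ.support
    · obtain ⟨g, rfl⟩ := hsurj x hx
      rw [hrin, hrin, inv_inv]
    · rw [hrout x hx, hrout x hx]
  have hord : ∀ g : zpowers σ, g * g = 1 → g = 1 := by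
    intro g hg
    have hc : Odd (orderOf σ) := by rw [hσ.orderOf]; exact hodd
    have h1 : orderOf g ∣ 2 := orderOf_dvd_of_pow_eq_one (by rw [pow_two]; exact hg)
    have h2 : orderOf g ∣ orderOf σ := by
      rw [← Nat.card_zpowers σ]
      exact orderOf_dvd_natCard g
    have h3 : Nat.Coprime 2 (orderOf σ) := (Nat.coprime_two_left).mpr hc
    have h4 : orderOf g = 1 := Nat.eq_one_of_dvd_coprimes h3 h1 h2
    exact orderOf_eq_one_iff.mp h4
  have hfix : ∀ g : zpowers σ, r (e g) = e g ↔ g = 1 := by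
    intro g
    rw [hrin]
    constructor
    · intro h
      have h1 : g⁻¹ = g := e.injective (Subtype.ext h)
      apply hord
      calc g * g = g⁻¹ * g := by rw [h1]
        _ = 1 := inv_mul_cancel g
    · rintro rfl
      rw [inv_one]
  have hsupp : r.support = σ.support.erase (e 1 : α) := by
    ext x
    rw [Finset.mem_erase, mem_support]
    constructor
    · intro hx
      have hxs : x ∈ σ.support := by
        by_contra hc
        exact hx (hrout x hc)
      refine ⟨fun hc => ?_, hxs⟩
      rw [hc] at hx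
      exact hx ((hfix 1).mpr rfl)
    · rintro ⟨h1, h2⟩ hc
      obtain ⟨g, rfl⟩ := hsurj x h2
      rw [hfix] at hc
      rw [hc] at h1
      exact h1 rfl
  have hcard : r.support.card = σ.support.card - 1 := by
    rw [hsupp, Finset.card_erase_of_mem (e 1).2]
  refine ⟨r, hrr, ?_, hrout, ?_, hcard⟩
  · ext x
    rw [Perm.mul_apply, Perm.mul_apply]
    by_cases hx : x ∈ σ.support
    · obtain ⟨g, rfl⟩ := hsurj x hx
      rw [hrin, hσe, hrin]
      have h1 : ((e (⟨σ, mem_zpowers σ⟩⁻¹ * g) : σ.support) : α) = σ⁻¹ (e g) := rfl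
      rw [← h1]
      congr 2
      rw [mul_inv_rev, inv_inv, hcm]
    · have h1 : σ x = x := by rwa [mem_support, not_not] at hx
      have h2 : σ⁻¹ x = x := by rw [Perm.inv_eq_iff_eq, h1]
      rw [hrout x hx, h1, hrout x hx, h2]
  · rw [sign_of_pow_two_eq_one (by rw [pow_two]; exact hrr), card_fixedPoints, sum_cycleType,
      Nat.sub_sub_self (Finset.card_le_univ _), hcard]

end H35Sol
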